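import Mathlib
import Pool.Agent.H28.MBasis

set_option autoImplicit false

open Filter Topology

namespace Pool.Agent.Results.MP_8292e8_an.ConvexSquare

theorem exists_omega (𝕜 : Type*) [RCLike 𝕜] : ∃ ω : 𝕜, ω ^ 4 = 1 ∧
    (∀ c : 𝕜, c ≠ 0 → ∃ k : ℕ, 0 < RCLike.re (ω ^ k * c)) ∧
    (∀ a : 𝕜, ∃ c : 𝕜, c ≠ 0 ∧ ∀ k : ℕ, RCLike.re (c * ((ω ^ 2) ^ k * a)) ≤ 0) := by
  rcases RCLike.I_eq_zero_or_im_I_eq_one (K := 𝕜) with hI | hI
  · have him : ∀ c : 𝕜, RCLike.im c = 0 := fun c => RCLike.im_eq_zero hI c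
    refine ⟨-1, by norm_num, fun c hc => ?_, fun a => ?_⟩
    · have : RCLike.re c ≠ 0 := fun h => hc (RCLike.ext (by simpa using h) (by simpa using him c))
      rcases lt_or_gt_of_ne this with h | h
      · exact ⟨1, by simpa using h⟩
      · exact ⟨0, by simpa using h⟩
    · rcases le_total (RCLike.re a) 0 with h | h
      · exact ⟨1, one_ne_zero, fun k => by simpa using h⟩
      · exact ⟨-1, by simp, fun k => by simpa using h⟩
  · have hII : (RCLike.I : 𝕜) * RCLike.I = -1 := RCLike.I_mul_I_of_nonzero (fun h => by simp [h] at hI)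
    have h2 : (RCLike.I : 𝕜) ^ 2 = -1 := by rw [sq, hII]
    refine ⟨RCLike.I, by rw [show 4 = 2 * 2 from rfl, pow_mul, h2]; norm_num, fun c hc => ?_, fun a => ?_⟩
    · by_cases hre : RCLike.re c = 0
      · have : RCLike.im c ≠ 0 := fun h => hc (RCLike.ext (by simpa using hre) (by simpa using h))
        rcases lt_or_gt_of_ne this with h | h
        · exact ⟨1, by simpa [hI] using h⟩
        · refine ⟨3, ?_⟩
          rw [pow_succ, h2]
          simpa [hI] using h
      · rcases lt_or_gt_of_ne hre with h | h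
        · exact ⟨2, by rw [h2]; simpa using h⟩
        · exact ⟨0, by simpa using h⟩
    · by_cases ha : a = 0
      · exact ⟨1, one_ne_zero, fun k => by simp [ha]⟩
      · refine ⟨RCLike.I * starRingEnd 𝕜 a, mul_ne_zero (fun h => by simp [h] at hI) (by simpa using ha),
          fun k => ?_⟩
        rw [h2]
        have : RCLike.I * starRingEnd 𝕜 a * ((-1) ^ k * a)
            = (((-1) ^ k * ‖a‖ ^ 2 : ℝ) : 𝕜) * RCLike.I := by
          push_cast
          rw [← RCLike.conj_mul a]; ring
        rw [this, RCLike.re_ofReal_mul, RCLike.I_re, mul_zero]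

theorem result (𝕜 : Type*) [RCLike 𝕜] (X : Type*) [NormedAddCommGroup X] [NormedSpace 𝕜 X]
    [NormedSpace ℝ X] [IsScalarTower ℝ 𝕜 X] [CompleteSpace X] [TopologicalSpace.SeparableSpace X]
    [Nontrivial X] :
    ∃ S : X →L[𝕜] X,
      (∃ x : X, Dense (convexHull ℝ (Set.range fun n : ℕ => (S ^ n) x))) ∧
      ¬ ∃ x : X, Dense (convexHull ℝ (Set.range fun n : ℕ => ((S ^ 2) ^ n) x)) := by
  classical
  obtain ⟨y, f, hij, hf0, hf1, hdense⟩ := Pool.Agent.H28.MBasis.exists_system (𝕜 := 𝕜) (X := X)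
  obtain ⟨ω, hω4, hωa, hωb⟩ := exists_omega 𝕜
  have hωn : ‖ω‖ = 1 := by
    have := congrArg norm hω4
    rw [norm_pow, norm_one] at this
    exact (pow_eq_one_iff_of_nonneg (norm_nonneg _) (by norm_num)).1 this
  let N : ℕ → ℝ := fun n => 1 + ∑ j ∈ Finset.range (n + 1), ‖f j‖ * ‖y j‖
  have hN1 : ∀ n, 1 ≤ N n := fun n => by
    have : 0 ≤ ∑ j ∈ Finset.range (n + 1), ‖f j‖ * ‖y j‖ := Finset.sum_nonneg (fun j _ => by positivity)
    simp only [N]; linarith
  have hNle : ∀ n, ‖f n‖ * ‖y n‖ ≤ N n := fun n => by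
    have : 0 ≤ ∑ j ∈ Finset.range n, ‖f j‖ * ‖y j‖ := Finset.sum_nonneg (fun j _ => by positivity)
    simp only [N, Finset.sum_range_succ]; linarith
  have hNmono : ∀ n, N n ≤ N (n + 1) := fun n => by
    have : 0 ≤ ‖f (n + 1)‖ * ‖y (n + 1)‖ := by positivity
    simp only [N, Finset.sum_range_succ _ (n + 1)]; linarith
  let ε : ℕ → ℝ := fun n => (1 / 2) ^ n / N n
  have hε0 : ∀ n, 0 < ε n := fun n => div_pos (by positivity) (by linarith [hN1 n])
  have hεanti : StrictAnti ε := by
    apply strictAnti_nat_of_succ_lt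
    intro n
    have h1 := hN1 n
    calc ε (n + 1) ≤ (1 / 2) ^ (n + 1) / N n :=
          div_le_div_of_nonneg_left (by positivity) (by linarith) (hNmono n)
      _ < ε n := by
          apply div_lt_div_of_pos_right _ (by linarith)
          rw [pow_succ]
          have : (0 : ℝ) < (1 / 2) ^ n := by positivity
          linarith
  let t : ℕ → X →L[𝕜] X := fun n => (ε n : 𝕜) • (f n).smulRight (y n)
  have hts : Summable t := by
    refine Summable.of_norm_bounded summable_geometric_two (fun n => ?_)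
    have h1 := hN1 n
    simp only [t]
    rw [norm_smul, ContinuousLinearMap.norm_smulRight_apply, RCLike.norm_ofReal, abs_of_pos (hε0 n)]
    calc ε n * (‖f n‖ * ‖y n‖) ≤ ε n * N n := mul_le_mul_of_nonneg_left (hNle n) (hε0 n).le
      _ = (1 / 2) ^ n := div_mul_cancel₀ _ (by linarith)
  let K : X →L[𝕜] X := ∑' n, t n
  have hK : ∀ v, HasSum (fun n => ((ε n : 𝕜) * f n v) • y n) (K v) := by
    intro v
    have := (ContinuousLinearMap.apply 𝕜 X v).hasSum hts.hasSum
    have e : (fun n => ((ε n : 𝕜) * f n v) • y n) = fun n => ContinuousLinearMap.apply 𝕜 X v (t n) := by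
      funext n
      simp only [t, ContinuousLinearMap.apply_apply, ContinuousLinearMap.smul_apply,
        ContinuousLinearMap.smulRight_apply, mul_smul]
    rw [e]
    exact this
  let r : ℕ → ℝ := fun n => 2 + ε n
  have hr : ∀ n, ((r n : ℝ) : 𝕜) = 2 + (ε n : 𝕜) := fun n => by simp only [r]; push_cast; rfl
  let S : X →L[𝕜] X := ω • ((2 : 𝕜) • (1 : X →L[𝕜] X) + K)
  have hSv : ∀ v, S v = ω • ((2 : 𝕜) • v + K v) := fun v => rfl
  have hSy : ∀ n, S (y n) = (ω * r n) • y n := by
    intro n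
    have h1 : K (y n) = (ε n : 𝕜) • y n := by
      have h2 := hasSum_single (f := fun m => ((ε m : 𝕜) * f m (y n)) • y m) n
        (fun m hm => by simp [hij m n hm])
      rw [(hK _).unique h2]
      by_cases hy : y n = 0
      · simp [hy]
      · simp [hf1 n hy]
    rw [hSv, h1, ← add_smul, smul_smul, hr]
  have hfS : ∀ m v, f m (S v) = (ω * r m) * f m v := by
    intro m v
    have h1 : f m (K v) = ε m * f m v := by
      have h2 := (f m).hasSum (hK v)
      have h3 := hasSum_single (f := fun n => f m (((ε n : 𝕜) * f n v) • y n)) m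
        (fun n hn => by simp [hij m n (Ne.symm hn)])
      rw [h2.unique h3]
      by_cases hy : y m = 0
      · simp [hf0 m hy]
      · simp [hf1 m hy]
    rw [hSv, map_smul, map_add, map_smul, h1, hr]
    simp only [smul_eq_mul]; ring
  have hSyk : ∀ k n, (S ^ k) (y n) = ((ω * r n) ^ k) • y n := by
    intro k n
    induction k with
    | zero => simp
    | succ k ih => rw [pow_succ', ContinuousLinearMap.mul_apply, ih, map_smul, hSy, smul_smul, pow_succ]
  have hfSk : ∀ k m v, f m ((S ^ k) v) = (ω * r m) ^ k * f m v := by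
    intro k m v
    induction k with
    | zero => simp
    | succ k ih => rw [pow_succ', ContinuousLinearMap.mul_apply, hfS, ih, pow_succ']; ring
  refine ⟨S, ?_, ?_⟩
  · let a : ℕ → ℝ := fun n => (1 / 2) ^ n / (1 + ‖y n‖)
    have ha0 : ∀ n, 0 < a n := fun n => by positivity
    have hay : ∀ n, ‖(a n : 𝕜) • y n‖ ≤ (1 / 2) ^ n := by
      intro n
      rw [norm_smul, RCLike.norm_ofReal, abs_of_pos (ha0 n)]
      calc a n * ‖y n‖ ≤ a n * (1 + ‖y n‖) := mul_le_mul_of_nonneg_left (by linarith) (ha0 n).le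
        _ = (1 / 2) ^ n := div_mul_cancel₀ _ (by positivity)
    have hxs : Summable (fun n => (a n : 𝕜) • y n) := Summable.of_norm_bounded summable_geometric_two hay
    refine ⟨∑' n, (a n : 𝕜) • y n, ?_⟩
    set x := ∑' n, (a n : 𝕜) • y n with hx
    by_contra hnd
    rw [dense_iff_closure_eq, Set.eq_univ_iff_forall] at hnd
    push Not at hnd
    obtain ⟨z, hz⟩ := hnd
    obtain ⟨φ, u, hu1, hu2⟩ := RCLike.geometric_hahn_banach_closed_point (𝕜 := 𝕜)
      (convex_convexHull ℝ _).closure isClosed_closure hz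
    have hub : ∀ k, RCLike.re (φ ((S ^ k) x)) < u := fun k =>
      hu1 _ (subset_closure (subset_convexHull ℝ _ ⟨k, rfl⟩))
    have hφ : φ ≠ 0 := by
      intro h
      have := hub 0
      simp [h] at this hu2
      linarith
    have hex : ∃ n, φ (y n) ≠ 0 := by
      by_contra h
      push Not at h
      exact hφ (Pool.Agent.H28.MBasis.eq_zero_of_dense_span hdense φ h)
    let m := Nat.find hex
    have hm : φ (y m) ≠ 0 := Nat.find_spec hex
    have hlt : ∀ n < m, φ (y n) = 0 := fun n hn => not_not.1 (Nat.find_min hex hn)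
    let b : ℕ → 𝕜 := fun n => φ ((a n : 𝕜) • y n)
    have hb : ∀ n, ‖b n‖ ≤ ‖φ‖ * (1 / 2) ^ n := fun n =>
      (φ.le_opNorm _).trans (mul_le_mul_of_nonneg_left (hay n) (norm_nonneg _))
    have hbm : b m ≠ 0 := by
      simp only [b, map_smul, smul_eq_mul]
      exact mul_ne_zero (by exact_mod_cast (ha0 m).ne') hm
    obtain ⟨k0, hk0⟩ := hωa _ hbm
    set β := RCLike.re (ω ^ k0 * b m) with hβ
    have hr2 : ∀ n, 2 < r n := fun n => by simp only [r]; linarith [hε0 n]
    have hsum : ∀ k, HasSum (fun n => (ω * r n) ^ k * b n) (φ ((S ^ k) x)) := by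
      intro k
      have := φ.hasSum ((S ^ k).hasSum hxs.hasSum)
      have e : (fun n => (ω * r n) ^ k * b n) = fun n => φ ((S ^ k) ((a n : 𝕜) • y n)) := by
        funext n
        simp only [b, map_smul, hSyk, smul_eq_mul]; ring
      rw [e]
      exact this
    have hrest : ∀ k, ‖φ ((S ^ k) x) - (ω * r m) ^ k * b m‖ ≤ r (m + 1) ^ k * (‖φ‖ * 2) := by
      intro k
      refine (hasSum_ite_sub_hasSum (hsum k) m).norm_le_of_bounded
        ((hasSum_geometric_two.mul_left ‖φ‖).mul_left (r (m + 1) ^ k)) (fun n => ?_)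
      have h0 : 0 ≤ r (m + 1) ^ k * (‖φ‖ * (1 / 2) ^ n) := by
        have := hr2 (m + 1); positivity
      rcases lt_trichotomy n m with h | h | h
      · simp only [b, map_smul, hlt n h]
        simpa using h0
      · simpa [h] using h0
      · rw [if_neg h.ne', norm_mul, norm_pow, norm_mul, hωn, one_mul, RCLike.norm_ofReal,
          abs_of_pos (by linarith [hr2 n])]
        have h1 : r n ≤ r (m + 1) := by
          simp only [r]; linarith [hεanti.antitone (show m + 1 ≤ n from h)]
        have := hr2 n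
        exact mul_le_mul (pow_le_pow_left₀ (by linarith) h1 k) (hb n) (norm_nonneg _)
          (by have := hr2 (m + 1); positivity)
    have hlow : ∀ j, β * r m ^ (k0 + 4 * j) - r (m + 1) ^ (k0 + 4 * j) * (‖φ‖ * 2) < u := by
      intro j
      have h1 := hrest (k0 + 4 * j)
      have h2 := hub (k0 + 4 * j)
      have h3 : RCLike.re ((ω * r m) ^ (k0 + 4 * j) * b m) = β * r m ^ (k0 + 4 * j) := by
        have : (ω * r m) ^ (k0 + 4 * j) * b m = ((r m ^ (k0 + 4 * j) : ℝ) : 𝕜) * (ω ^ k0 * b m) := by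
          rw [mul_pow, pow_add ω, pow_mul, hω4]; push_cast; ring
        rw [this, RCLike.re_ofReal_mul, mul_comm]
      have h4 := (RCLike.abs_re_le_norm _).trans h1
      rw [map_sub, h3] at h4
      linarith [(abs_le.1 h4).1]
    have hr0 : 0 < r m := by linarith [hr2 m]
    have hq : r (m + 1) / r m < 1 := by
      rw [div_lt_one hr0]; simp only [r]; linarith [hεanti (Nat.lt_add_one m)]
    have hq0 : 0 ≤ r (m + 1) / r m := div_nonneg (by linarith [hr2 (m + 1)]) hr0.le
    have hk : Tendsto (fun j : ℕ => k0 + 4 * j) atTop atTop :=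
      tendsto_atTop_mono (fun j => by simp only [id]; omega) tendsto_id
    have t1 : Tendsto (fun j : ℕ => β - (r (m + 1) / r m) ^ (k0 + 4 * j) * (‖φ‖ * 2)) atTop
        (𝓝 (β - 0 * (‖φ‖ * 2))) :=
      tendsto_const_nhds.sub (((tendsto_pow_atTop_nhds_zero_of_lt_one hq0 hq).comp hk).mul_const _)
    have t2 : Tendsto (fun j : ℕ => r m ^ (k0 + 4 * j)) atTop atTop :=
      (tendsto_pow_atTop_atTop_of_one_lt (by linarith [hr2 m])).comp hk
    have t3 := t1.pos_mul_atTop (by simpa using hk0) t2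
    obtain ⟨j, hj⟩ := (t3.eventually_gt_atTop u).exists
    have h5 := hlow j
    have e : (β - (r (m + 1) / r m) ^ (k0 + 4 * j) * (‖φ‖ * 2)) * r m ^ (k0 + 4 * j)
        = β * r m ^ (k0 + 4 * j) - r (m + 1) ^ (k0 + 4 * j) * (‖φ‖ * 2) := by
      rw [div_pow]; field_simp
    rw [e] at hj
    linarith
  · rintro ⟨x, hx⟩
    have hex : ∃ m, y m ≠ 0 := by
      by_contra h
      push Not at h
      obtain ⟨v, hv⟩ := exists_ne (0 : X)
      obtain ⟨g, -, hg⟩ := exists_dual_vector 𝕜 v (norm_ne_zero_iff.2 hv)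
      have := Pool.Agent.H28.MBasis.eq_zero_of_dense_span hdense g (fun n => by simp [h n])
      rw [this] at hg
      rw [ContinuousLinearMap.zero_apply] at hg
      exact hv (norm_eq_zero.1 (by exact_mod_cast hg.symm))
    obtain ⟨m, hm⟩ := hex
    obtain ⟨c, hc0, hc⟩ := hωb (f m x)
    let H : Set X := {z | RCLike.re (c * f m z) ≤ 0}
    have hHc : IsClosed H := isClosed_le (by fun_prop) continuous_const
    have hHv : Convex ℝ H := by
      intro p hp q hq s t hs ht _
      simp only [H, Set.mem_setOf_eq] at hp hq ⊢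
      rw [map_add, RCLike.real_smul_eq_coe_smul (K := 𝕜), RCLike.real_smul_eq_coe_smul (K := 𝕜),
        map_smul, map_smul, smul_eq_mul, smul_eq_mul, mul_add, mul_left_comm, mul_left_comm c,
        map_add, RCLike.re_ofReal_mul, RCLike.re_ofReal_mul]
      nlinarith [mul_nonneg hs (neg_nonneg.2 hp), mul_nonneg ht (neg_nonneg.2 hq)]
    have hsub : convexHull ℝ (Set.range fun n : ℕ => ((S ^ 2) ^ n) x) ⊆ H := by
      apply convexHull_min _ hHv
      rintro _ ⟨k, rfl⟩
      simp only [H, Set.mem_setOf_eq]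
      rw [← pow_mul, hfSk]
      have : c * ((ω * r m) ^ (2 * k) * f m x) = ((r m ^ (2 * k) : ℝ) : 𝕜) * (c * ((ω ^ 2) ^ k * f m x)) := by
        push_cast; rw [← pow_mul]; ring
      rw [this, RCLike.re_ofReal_mul]
      have h2 : 0 ≤ r m ^ (2 * k) := by rw [pow_mul]; positivity
      exact mul_nonpos_of_nonneg_of_nonpos h2 (hc k)
    have hall : (starRingEnd 𝕜 c) • y m ∈ H := hHc.closure_subset_iff.2 hsub (hx _)
    simp only [H, Set.mem_setOf_eq, map_smul, hf1 m hm, smul_eq_mul, mul_one] at hall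
    rw [RCLike.mul_conj] at hall
    have : (0 : ℝ) < ‖c‖ ^ 2 := by positivity
    rw [← RCLike.ofReal_pow, RCLike.ofReal_re] at hall
    linarith

end Pool.Agent.Results.MP_8292e8_an.ConvexSquare
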